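import Mathlib
import Pool.Agent.H.MP_2e63e7_co.C

set_option autoImplicit false

namespace Pool.Agent.H.MP_7b563b_co

open Finset SimpleGraph Pool.Agent.H.MP_2e63e7_co

variable {V : Type} [DecidableEq V] {G : SimpleGraph V}

/-- an oriented induced matching. -/
def IM (G : SimpleGraph V) (P : Finset (V × V)) : Prop :=
  (∀ p ∈ P, G.Adj p.1 p.2) ∧ ∀ p ∈ P, ∀ q ∈ P, p ≠ q →
    ¬ G.Adj p.1 q.1 ∧ ¬ G.Adj p.1 q.2 ∧ ¬ G.Adj p.2 q.2

omit [DecidableEq V] in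
lemma IM.mono {P Q : Finset (V × V)} (h : IM G P) (s : Q ⊆ P) : IM G Q :=
  ⟨fun p hp => h.1 p (s hp), fun p hp q hq => h.2 p (s hp) q (s hq)⟩

omit [DecidableEq V] in
lemma IM.i1 {P : Finset (V × V)} (h : IM G P) : Set.InjOn Prod.fst (P : Set (V × V)) :=
  fun p hp q hq e => by_contra fun n => (h.2 p hp q hq n).2.1 (e ▸ h.1 q hq)

omit [DecidableEq V] in
lemma IM.i2 {P : Finset (V × V)} (h : IM G P) : Set.InjOn Prod.snd (P : Set (V × V)) :=
  fun p hp q hq e => by_contra fun n => (h.2 p hp q hq n).2.1 (e ▸ h.1 p hp)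

lemma IM.swap {P : Finset (V × V)} (h : IM G P) : IM G (P.image Prod.swap) := by
  refine ⟨fun p hp => ?_, fun p hp q hq n => ?_⟩
  · obtain ⟨a, ha, rfl⟩ := mem_image.1 hp
    exact (h.1 a ha).symm
  · obtain ⟨a, ha, rfl⟩ := mem_image.1 hp
    obtain ⟨b, hb, rfl⟩ := mem_image.1 hq
    have m : a ≠ b := fun e => n (by rw [e])
    exact ⟨(h.2 a ha b hb m).2.2, fun e => (h.2 b hb a ha m.symm).2.1 e.symm, (h.2 a ha b hb m).1⟩

lemma obs (t : ℕ) {P Q : Finset (V × V)} (hP : IM G P) (hQ : IM G Q) (c1 : #P = 2 * t + 2)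
    (c2 : #Q = 2 * t + 2) (h : ∀ p ∈ P, ∀ q ∈ Q, G.Adj p.1 q.1) :
    ∃ f : Fin 4 → Fin t → V, Function.Injective (Function.uncurry f) ∧
        (∀ p i j, ¬ G.Adj (f p i) (f p j)) ∧
        (∀ i j, G.Adj (f 0 i) (f 1 j) ↔ i = j) ∧
        (∀ i j, G.Adj (f 2 i) (f 3 j) ↔ i = j) ∧
        (∀ i j, G.Adj (f 1 i) (f 2 j)) := by
  obtain ⟨P', p1, p2⟩ := exists_subset_card_eq (show t ≤ #P by omega)
  have : t ≤ #{q ∈ Q | q.2 ∉ P'.image Prod.snd} := by
    have a := card_filter_add_card_filter_not (s := Q) fun q => q.2 ∈ P'.image Prod.snd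
    have b : #{q ∈ Q | q.2 ∈ P'.image Prod.snd} ≤ #(P'.image Prod.snd) :=
      card_le_card_of_injOn Prod.snd (fun q hq => (mem_filter.1 hq).2)
        (hQ.mono (filter_subset _ _)).i2
    have := card_image_le (s := P') (f := Prod.snd)
    omega
  obtain ⟨Q', q1, q2⟩ := exists_subset_card_eq this
  let p : Fin t → V × V := fun i => (P'.equivFinOfCardEq p2).symm i
  let q : Fin t → V × V := fun i => (Q'.equivFinOfCardEq q2).symm i
  have pm' : ∀ i, p i ∈ P' := fun i => Subtype.prop _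
  have pm : ∀ i, p i ∈ P := fun i => p1 (pm' i)
  have qm' : ∀ i, q i ∈ Q' := fun i => Subtype.prop _
  have qm : ∀ i, q i ∈ Q := fun i => (mem_filter.1 (q1 (qm' i))).1
  have pi : Function.Injective p := fun i j e =>
    (P'.equivFinOfCardEq p2).symm.injective (Subtype.ext e)
  have qi : Function.Injective q := fun i j e =>
    (Q'.equivFinOfCardEq q2).symm.injective (Subtype.ext e)
  have g1 : ∀ {P : Finset (V × V)}, IM G P → ∀ a ∈ P, ∀ b ∈ P,
      ¬ G.Adj a.1 b.1 ∧ ¬ G.Adj a.2 b.2 ∧ (G.Adj a.1 b.2 ↔ a = b) ∧ a.1 ≠ b.2 := by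
    intro P hP a ha b hb
    by_cases e : a = b
    · subst e
      exact ⟨G.irrefl, G.irrefl, iff_of_true (hP.1 a ha) rfl, (hP.1 a ha).ne⟩
    · obtain ⟨x, y, z⟩ := hP.2 a ha b hb e
      exact ⟨x, z, iff_of_false y e, fun r => x (r ▸ (hP.1 b hb).symm)⟩
  have g2 : ∀ {P : Finset (V × V)}, IM G P → #P = 2 * t + 2 → ∀ a ∈ P, ∀ x,
      (∀ b ∈ P, G.Adj b.1 x) → a.2 ≠ x := by
    intro P hP c a ha x hx e
    obtain ⟨b, hb, n⟩ := exists_mem_ne (show 1 < #P by omega) a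
    exact (hP.2 b hb a ha n).2.1 (e ▸ hx b hb)
  have n1 : ∀ i j, (p i).2 ≠ (q j).1 := fun i j =>
    g2 hP c1 _ (pm i) _ fun b hb => h b hb _ (qm j)
  have n2 : ∀ i j, (q j).2 ≠ (p i).1 := fun i j =>
    g2 hQ c2 _ (qm j) _ fun b hb => (h _ (pm i) b hb).symm
  have n3 : ∀ i j, (p i).2 ≠ (q j).2 := fun i j e =>
    (mem_filter.1 (q1 (qm' j))).2 (e ▸ mem_image_of_mem _ (pm' i))
  have n4 : ∀ i j, (p i).1 ≠ (q j).1 := fun i j => (h _ (pm i) _ (qm j)).ne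
  have n5 : ∀ i j, (p i).1 ≠ (p j).2 := fun i j => (g1 hP _ (pm i) _ (pm j)).2.2.2
  have n6 : ∀ i j, (q i).1 ≠ (q j).2 := fun i j => (g1 hQ _ (qm i) _ (qm j)).2.2.2
  refine ⟨![fun i => (p i).2, fun i => (p i).1, fun i => (q i).1, fun i => (q i).2], ?_, ?_,
    fun i j => ?_, fun i j => ?_, fun i j => h _ (pm i) _ (qm j)⟩
  · rintro ⟨a, i⟩ ⟨b, j⟩ e
    fin_cases a <;> fin_cases b <;> simp only [Function.uncurry] at e
    · rw [pi (hP.i2 (pm i) (pm j) e)]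
    · exact absurd e.symm (n5 _ _)
    · exact absurd e (n1 _ _)
    · exact absurd e (n3 _ _)
    · exact absurd e (n5 _ _)
    · rw [pi (hP.i1 (pm i) (pm j) e)]
    · exact absurd e (n4 _ _)
    · exact absurd e.symm (n2 _ _)
    · exact absurd e.symm (n1 _ _)
    · exact absurd e.symm (n4 _ _)
    · rw [qi (hQ.i1 (qm i) (qm j) e)]
    · exact absurd e (n6 _ _)
    · exact absurd e.symm (n3 _ _)
    · exact absurd e (n2 _ _)
    · exact absurd e.symm (n6 _ _)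
    · rw [qi (hQ.i2 (qm i) (qm j) e)]
  · intro a i j
    fin_cases a
    · exact (g1 hP _ (pm i) _ (pm j)).2.1
    · exact (g1 hP _ (pm i) _ (pm j)).1
    · exact (g1 hQ _ (qm i) _ (qm j)).1
    · exact (g1 hQ _ (qm i) _ (qm j)).2.1
  · exact (G.adj_comm _ _).trans ((g1 hP _ (pm j) _ (pm i)).2.2.1.trans (pi.eq_iff.trans eq_comm))
  · exact (g1 hQ _ (qm i) _ (qm j)).2.2.1.trans qi.eq_iff

theorem mu (k t : ℕ) : ∃ c, ∀ (V : Type) [Fintype V] [DecidableEq V] (G : SimpleGraph V),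
    Bal G k → (¬ ∃ P Q, IM G P ∧ IM G Q ∧ #P = t ∧ #Q = t ∧ ∀ p ∈ P, ∀ q ∈ Q, G.Adj p.1 q.1) →
    ∃ (n : ℕ) (T : SimpleGraph (Fin n)) (B : Fin n → Finset V), T.IsTree ∧
      (∀ u v : V, G.Adj u v → ∃ i, u ∈ B i ∧ v ∈ B i) ∧
      (∀ v : V, (T.induce {i | v ∈ B i}).Connected) ∧
      ∀ i, ∀ P, IM G P → (∀ p ∈ P, p.1 ∈ B i) → #P ≤ c := by
  obtain ⟨M, M0, hM⟩ := kst (16 * (k + 1)) t
  refine ⟨13 * M, fun V _ _ G hB hK => ?_⟩
  classical
  refine td G (fun W => ∀ P, IM G P → (∀ p ∈ P, p.1 ∈ W) → #P < 12 * M)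
    (fun W => ∀ P, IM G P → (∀ p ∈ P, p.1 ∈ W) → #P ≤ 13 * M)
    (fun W W' a b S c d => b S c fun p hp => a (d p hp))
    (fun W W' a b S c d => b S c fun p hp => a (d p hp))
    (fun W a S b c => by have := a S b c; omega)
    (fun S _ a => by
      rw [eq_empty_of_forall_notMem fun p hp => notMem_empty _ (a p hp), card_empty]; omega)
    fun W u hW => ?_
  have w1 : ∀ P, IM G P → (∀ p ∈ P, p.1 ∈ insert u W) → #P ≤ 12 * M := by
    intro P a b
    have := card_filter_add_card_filter_not (s := P) fun p => p.1 = u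
    have := hW {p ∈ P | ¬ p.1 = u} (a.mono (filter_subset _ _)) fun p hp =>
      (mem_insert.1 (b p (mem_filter.1 hp).1)).resolve_left (mem_filter.1 hp).2
    have : #{p ∈ P | p.1 = u} ≤ 1 := card_le_one.2 fun x hx y hy =>
      a.i1 (mem_filter.1 hx).1 (mem_filter.1 hy).1
        ((mem_filter.1 hx).2.trans (mem_filter.1 hy).2.symm)
    omega
  generalize insert u W = W' at *
  by_cases q : ∀ P, IM G P → (∀ p ∈ P, p.1 ∈ W') → #P < 12 * M
  · exact .inl q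
  push Not at q
  obtain ⟨P0, i1, i2, i3⟩ := q
  have i4 := w1 P0 i1 i2
  obtain ⟨X, x1, x2, x3⟩ := hB (P0.image Prod.fst) (4 * M) (by omega)
    (by rw [card_image_of_injOn i1.i1]; omega)
  have sub : ∀ P, IM G P → ∀ S ⊆ P.image Prod.fst, #S ≤ #{p ∈ P | p.1 ∈ S} := by
    intro P _ S hS
    refine le_trans (card_le_card fun x hx => ?_) (card_image_le (f := Prod.fst))
    obtain ⟨p, hp, rfl⟩ := mem_image.1 (hS hx)
    exact mem_image_of_mem _ (mem_filter.2 ⟨hp, hx⟩)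
  obtain ⟨C, c1, c2⟩ := cover G X k M M0 {J | ∃ P, IM G P ∧ #P = M ∧ J = P.image Prod.fst}
    (by rintro _ ⟨P, a, b, rfl⟩; rw [card_image_of_injOn a.i1, b])
    (by
      rintro _ ⟨P, a, b, rfl⟩ _ ⟨Q, a', b', rfl⟩
      refine hM V G _ _ (by rw [card_image_of_injOn a.i1, b])
        (by rw [card_image_of_injOn a'.i1, b']) fun ⟨S, s1, T, t1, s2, t2, h⟩ => ?_
      obtain ⟨P', p1, p2⟩ := exists_subset_card_eq (s2 ▸ sub P a S s1)
      obtain ⟨Q', q1, q2⟩ := exists_subset_card_eq (t2 ▸ sub Q a' T t1)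
      exact hK ⟨P', Q', a.mono (p1.trans (filter_subset _ _)), a'.mono (q1.trans (filter_subset _ _)),
        p2, q2, fun p hp q hq => h _ (mem_filter.1 (p1 hp)).2 _ (mem_filter.1 (q1 hq)).2⟩) x3
  have c3 : ∀ P, IM G P → #{p ∈ P | p.1 ∈ C} < M := by
    intro P hP
    by_contra hn
    obtain ⟨J, j1, j2⟩ := exists_subset_card_eq (not_lt.1 hn)
    refine c2 _ ⟨J, hP.mono (j1.trans (filter_subset _ _)), j2, rfl⟩ fun x hx => ?_
    obtain ⟨p, hp, rfl⟩ := mem_image.1 hx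
    exact (mem_filter.1 (j1 hp)).2
  have c4 : ∀ P, IM G P → #P < #{p ∈ P | p.1 ∉ C ∧ p.2 ∉ C} + 2 * M := by
    intro P hP
    have a := c3 P hP
    have b := c3 _ hP.swap
    rw [filter_image, card_image_of_injective _ Prod.swap_injective] at b
    have c : P ⊆ {p ∈ P | p.1 ∉ C ∧ p.2 ∉ C} ∪ ({p ∈ P | p.1 ∈ C} ∪ {p ∈ P | p.swap.1 ∈ C}) := by
      intro p hp
      simp only [mem_union, mem_filter, Prod.fst_swap]
      tauto
    have := (card_le_card c).trans ((card_union_le _ _).trans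
      (Nat.add_le_add_left (card_union_le _ _) _))
    omega
  have side : ∀ X : Finset V, (∀ a ∈ X, ∀ b ∉ X, G.Adj a b → a ∈ C ∨ b ∈ C) →
      4 * M ≤ #(P0.image Prod.fst \ X) →
      ∀ P, IM G P → (∀ p ∈ P, p.1 ∈ W' ∩ X ∪ C) → #P < 12 * M := by
    intro X a b P c d
    have s1 := sub P0 i1 _ (sdiff_subset (t := X))
    set P2 := {p ∈ P0 | p.1 ∈ P0.image Prod.fst \ X} with hP2
    have m2 : IM G P2 := i1.mono (filter_subset _ _)
    have e : ∀ p ∈ {p ∈ P | p.1 ∉ C ∧ p.2 ∉ C}, p.1 ∈ W' ∧ p.1 ∈ X \ C ∧ p.2 ∈ X \ C := by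
      intro p hp
      obtain ⟨y1, y2, y3⟩ := mem_filter.1 hp
      obtain ⟨z1, z2⟩ := mem_inter.1 ((mem_union.1 (d p y1)).resolve_right y2)
      exact ⟨z1, mem_sdiff.2 ⟨z2, y2⟩, mem_sdiff.2
        ⟨by_contra fun n => (a _ z2 _ n (c.1 p y1)).elim y2 y3, y3⟩⟩
    have e' : ∀ p ∈ {p ∈ P2 | p.1 ∉ C ∧ p.2 ∉ C},
        p.1 ∈ W' ∧ (p.1 ∉ X ∧ p.1 ∉ C) ∧ p.2 ∉ X ∧ p.2 ∉ C := by
      intro p hp
      obtain ⟨y1, y2, y3⟩ := mem_filter.1 hp
      have z := (mem_sdiff.1 (mem_filter.1 y1).2).2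
      exact ⟨i2 p (mem_filter.1 y1).1, ⟨z, y2⟩,
        fun n => (a _ n _ z (m2.1 p y1).symm).elim y3 y2, y3⟩
    have cr : ∀ x ∈ X \ C, ∀ y, y ∉ X ∧ y ∉ C → ¬ G.Adj x y := fun x hx y hy h =>
      (a x (mem_sdiff.1 hx).1 y hy.1 h).elim (mem_sdiff.1 hx).2 hy.2
    have f := w1 ({p ∈ P | p.1 ∉ C ∧ p.2 ∉ C} ∪ {p ∈ P2 | p.1 ∉ C ∧ p.2 ∉ C}) ⟨fun p hp =>
      (mem_union.1 hp).elim (fun h => c.1 p (mem_filter.1 h).1) fun h => m2.1 p (mem_filter.1 h).1,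
      fun p hp q hq n => by
        rcases mem_union.1 hp with y | y <;> rcases mem_union.1 hq with z | z
        · exact c.2 p (mem_filter.1 y).1 q (mem_filter.1 z).1 n
        · exact ⟨cr _ (e p y).2.1 _ (e' q z).2.1, cr _ (e p y).2.1 _ (e' q z).2.2,
            cr _ (e p y).2.2 _ (e' q z).2.2⟩
        · exact ⟨fun h => cr _ (e q z).2.1 _ (e' p y).2.1 h.symm,
            fun h => cr _ (e q z).2.2 _ (e' p y).2.1 h.symm,
            fun h => cr _ (e q z).2.2 _ (e' p y).2.2 h.symm⟩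
        · exact m2.2 p (mem_filter.1 y).1 q (mem_filter.1 z).1 n⟩
      fun p hp => (mem_union.1 hp).elim (fun h => (e p h).1) fun h => (e' p h).1
    rw [card_union_of_disjoint (Finset.disjoint_left.2 fun x hx hy =>
      (e' x hy).2.1.1 (mem_sdiff.1 (e x hx).2.1).1)] at f
    have := c4 P c
    have := c4 P2 m2
    omega
  refine .inr ⟨X, C, c1, side X c1 x2, ?_, fun P a b => ?_⟩
  · rw [sdiff_eq_inter_compl]
    refine side Xᶜ (fun a ha b hb h => (c1 b (by simpa using hb) a (by simpa using ha) h.symm).symm) ?_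
    rwa [sdiff_eq_inter_compl, compl_compl]
  · have := card_filter_add_card_filter_not (s := P) fun p => p.1 ∈ C
    have := c3 P a
    have := w1 {p ∈ P | ¬ p.1 ∈ C} (a.mono (filter_subset _ _)) fun p hp =>
      (mem_union.1 (b p (mem_filter.1 hp).1)).resolve_right (mem_filter.1 hp).2
    omega

end Pool.Agent.H.MP_7b563b_co
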